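import Pool.Agent.Helper57.BI.Defs

/-! BI-21: passage to the limit in the vanishing pairings. -/

open MeasureTheory Complex Filter Topology
open scoped ENNReal

namespace Pool.Agent.Helper57.BI

/-- Cauchy-Schwarz in `eLpNorm` form. -/
theorem h36_eLpNorm_mul_one_le {X : Type} [MeasurableSpace X] {μ : Measure X} {a b : X → ℝ}
    (ha : AEStronglyMeasurable a μ) (hb : AEStronglyMeasurable b μ) :
    eLpNorm (fun x => a x * b x) 1 μ ≤ eLpNorm a 2 μ * eLpNorm b 2 μ := by
  exact eLpNorm_smul_le_mul_eLpNorm (p := 2) (q := 2) (r := 1) (μ := μ) (f := b) (φ := a) hb ha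

/-- Products of `L²`-convergent sequences converge in `L¹`. -/
theorem h36_tendsto_mul_L1 {X : Type} [MeasurableSpace X] {μ : Measure X} {a b : X → ℝ}
    {aJ bJ : ℕ → X → ℝ} (ha : Measurable a) (hb : Measurable b)
    (ha2 : MemLp a 2 μ) (hb2 : MemLp b 2 μ)
    (haJ : ∀ J, Measurable (aJ J)) (hbJ : ∀ J, Measurable (bJ J))
    (h1 : Tendsto (fun J : ℕ => eLpNorm (fun x => aJ J x - a x) 2 μ) atTop (𝓝 0))
    (h2 : Tendsto (fun J : ℕ => eLpNorm (fun x => bJ J x - b x) 2 μ) atTop (𝓝 0)) :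
    Tendsto (fun J : ℕ => eLpNorm (fun x => aJ J x * bJ J x - a x * b x) 1 μ) atTop (𝓝 0) := by
  have hbound : ∀ J, eLpNorm (fun x => aJ J x * bJ J x - a x * b x) 1 μ ≤
      eLpNorm (fun x => aJ J x - a x) 2 μ * eLpNorm (fun x => bJ J x - b x) 2 μ +
      eLpNorm (fun x => aJ J x - a x) 2 μ * eLpNorm b 2 μ +
      eLpNorm a 2 μ * eLpNorm (fun x => bJ J x - b x) 2 μ := by
    intro J
    have hda : Measurable (fun x => aJ J x - a x) := (haJ J).sub ha
    have hdb : Measurable (fun x => bJ J x - b x) := (hbJ J).sub hb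
    have e : (fun x => aJ J x * bJ J x - a x * b x) =
        ((fun x => (aJ J x - a x) * (bJ J x - b x)) + (fun x => (aJ J x - a x) * b x)) +
          (fun x => a x * (bJ J x - b x)) := by
      funext x
      simp only [Pi.add_apply]
      ring
    rw [e]
    refine (eLpNorm_add_le (((hda.mul hdb).add (hda.mul hb)).aestronglyMeasurable)
      ((ha.mul hdb).aestronglyMeasurable) le_rfl).trans ?_
    refine add_le_add ((eLpNorm_add_le ((hda.mul hdb).aestronglyMeasurable)
      ((hda.mul hb).aestronglyMeasurable) le_rfl).trans (add_le_add ?_ ?_)) ?_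
    · exact h36_eLpNorm_mul_one_le hda.aestronglyMeasurable hdb.aestronglyMeasurable
    · exact h36_eLpNorm_mul_one_le hda.aestronglyMeasurable hb.aestronglyMeasurable
    · exact h36_eLpNorm_mul_one_le ha.aestronglyMeasurable hdb.aestronglyMeasurable
  have hlim : Tendsto (fun J => eLpNorm (fun x => aJ J x - a x) 2 μ *
        eLpNorm (fun x => bJ J x - b x) 2 μ +
      eLpNorm (fun x => aJ J x - a x) 2 μ * eLpNorm b 2 μ +
      eLpNorm a 2 μ * eLpNorm (fun x => bJ J x - b x) 2 μ) atTop (𝓝 0) := by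
    have t1 := ENNReal.Tendsto.mul h1 (Or.inr ENNReal.zero_ne_top) h2 (Or.inr ENNReal.zero_ne_top)
    have t2 := ENNReal.Tendsto.mul_const (b := eLpNorm b 2 μ) h1 (Or.inr hb2.2.ne)
    have t3 := ENNReal.Tendsto.const_mul (a := eLpNorm a 2 μ) h2 (Or.inr ha2.2.ne)
    simpa using (t1.add t2).add t3
  exact tendsto_of_tendsto_of_tendsto_of_le_of_le tendsto_const_nhds hlim
    (fun _ => zero_le) hbound

/-- BI-21 -/
theorem limit_pass {X : Type} [MeasurableSpace X] (μ : Measure X) [IsProbabilityMeasure μ]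
    (T : X → X) (hT : MeasurePreserving T μ μ) (φ : X → ℝ) (hφm : Measurable φ)
    (hφ : Integrable φ μ) (hφ1 : ∀ x, φ x ≤ 1) (ψ : ℕ → X → ℝ) (hψ : ∀ J, Measurable (ψ J))
    (hψ2 : ∀ J, ∀ᵐ x ∂μ, ψ J x ≤ 2) (hψi : ∀ J, Integrable (ψ J) μ)
    (hψφ : Tendsto (fun J => ∫ x, |φ x - ψ J x| ∂μ) atTop (𝓝 0))
    (f g : X → ℝ) (hf : Measurable f) (hg : Measurable g) (hf4 : MemLp f 4 μ) (hg4 : MemLp g 4 μ)
    (fJ gJ : ℕ → X → ℝ) (hfJ : ∀ J, Measurable (fJ J)) (hgJ : ∀ J, Measurable (gJ J))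
    (hff : Tendsto (fun J : ℕ => eLpNorm (fun x => fJ J x - f x) 4 μ) atTop (𝓝 0))
    (hgg : Tendsto (fun J : ℕ => eLpNorm (fun x => gJ J x - g x) 4 μ) atTop (𝓝 0))
    (n : ℕ)
    (h0 : ∀ J, ∫ x, Real.exp (∑ k ∈ Finset.range n, ψ J (T^[k] x)) * fJ J (T^[n] x) * gJ J x ∂μ = 0) :
    ∫ x, Real.exp (∑ k ∈ Finset.range n, φ (T^[k] x)) * f (T^[n] x) * g x ∂μ = 0 := by
  have h24 : (2 : ℝ≥0∞) ≤ 4 := by norm_num
  have hf2 : MemLp f 2 μ := hf4.mono_exponent h24
  have hg2 : MemLp g 2 μ := hg4.mono_exponent h24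
  have hff2 : Tendsto (fun J : ℕ => eLpNorm (fun x => fJ J x - f x) 2 μ) atTop (𝓝 0) :=
    tendsto_of_tendsto_of_tendsto_of_le_of_le tendsto_const_nhds hff (fun _ => zero_le)
      (fun J => eLpNorm_le_eLpNorm_of_exponent_le h24 ((hfJ J).sub hf).aestronglyMeasurable)
  have hgg2 : Tendsto (fun J : ℕ => eLpNorm (fun x => gJ J x - g x) 2 μ) atTop (𝓝 0) :=
    tendsto_of_tendsto_of_tendsto_of_le_of_le tendsto_const_nhds hgg (fun _ => zero_le)
      (fun J => eLpNorm_le_eLpNorm_of_exponent_le h24 ((hgJ J).sub hg).aestronglyMeasurable)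
  have hTn : MeasurePreserving (T^[n]) μ μ := hT.iterate n
  have hfT : Measurable (fun x => f (T^[n] x)) := hf.comp hTn.measurable
  have hfJT : ∀ J, Measurable (fun x => fJ J (T^[n] x)) := fun J => (hfJ J).comp hTn.measurable
  have hfT2 : MemLp (fun x => f (T^[n] x)) 2 μ := hf2.comp_measurePreserving hTn
  have hffT : Tendsto (fun J : ℕ => eLpNorm (fun x => fJ J (T^[n] x) - f (T^[n] x)) 2 μ)
      atTop (𝓝 0) := by
    have e : ∀ J, eLpNorm (fun x => fJ J (T^[n] x) - f (T^[n] x)) 2 μ =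
        eLpNorm (fun x => fJ J x - f x) 2 μ := by
      intro J
      exact eLpNorm_comp_measurePreserving (g := fun x => fJ J x - f x)
        ((hfJ J).sub hf).aestronglyMeasurable hTn
    simpa only [e] using hff2
  have hprod := h36_tendsto_mul_L1 hfT hg hfT2 hg2 hfJT hgJ hffT hgg2
  -- the exponential factors
  have hEm : ∀ J, Measurable (fun x => Real.exp (∑ k ∈ Finset.range n, ψ J (T^[k] x))) := by
    intro J
    refine Real.measurable_exp.comp (Finset.measurable_sum _ fun k _ => ?_)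
    exact (hψ J).comp (hT.iterate k).measurable
  have hEm' : Measurable (fun x => Real.exp (∑ k ∈ Finset.range n, φ (T^[k] x))) := by
    refine Real.measurable_exp.comp (Finset.measurable_sum _ fun k _ => ?_)
    exact hφm.comp (hT.iterate k).measurable
  have hEb : ∀ J, ∀ᵐ x ∂μ, ‖Real.exp (∑ k ∈ Finset.range n, ψ J (T^[k] x))‖ ≤
      Real.exp (2 * n) := by
    intro J
    have h : ∀ k : ℕ, ∀ᵐ x ∂μ, ψ J (T^[k] x) ≤ 2 := fun k =>
      (hT.iterate k).quasiMeasurePreserving.ae (hψ2 J)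
    filter_upwards [ae_all_iff.mpr h] with x hx
    rw [Real.norm_eq_abs, abs_of_pos (Real.exp_pos _), Real.exp_le_exp]
    calc (∑ k ∈ Finset.range n, ψ J (T^[k] x)) ≤ ∑ k ∈ Finset.range n, (2 : ℝ) :=
          Finset.sum_le_sum fun k _ => hx k
      _ = 2 * n := by simp [mul_comm]
  -- a subsequence along which the exponents converge almost everywhere
  have hmeas : TendstoInMeasure μ ψ atTop φ := by
    refine tendstoInMeasure_of_tendsto_eLpNorm (p := 1) one_ne_zero
      (fun J => (hψ J).aestronglyMeasurable) hφm.aestronglyMeasurable ?_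
    have e : ∀ J, eLpNorm (ψ J - φ) 1 μ = ENNReal.ofReal (∫ x, |φ x - ψ J x| ∂μ) := by
      intro J
      rw [eLpNorm_one_eq_lintegral_enorm,
        ← ofReal_integral_norm_eq_lintegral_enorm ((hψi J).sub hφ)]
      congr 1
      refine integral_congr_ae (ae_of_all _ fun x => ?_)
      simp only [Pi.sub_apply, Real.norm_eq_abs]
      exact abs_sub_comm _ _
    simp only [e]
    simpa using ENNReal.tendsto_ofReal hψφ
  obtain ⟨ns, hns, hae⟩ := hmeas.exists_seq_tendsto_ae
  have haeT : ∀ᵐ x ∂μ, ∀ k : ℕ,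
      Tendsto (fun i => ψ (ns i) (T^[k] x)) atTop (𝓝 (φ (T^[k] x))) :=
    ae_all_iff.mpr fun k => (hT.iterate k).quasiMeasurePreserving.ae hae
  have hEae : ∀ᵐ x ∂μ, Tendsto (fun i => Real.exp (∑ k ∈ Finset.range n, ψ (ns i) (T^[k] x)))
      atTop (𝓝 (Real.exp (∑ k ∈ Finset.range n, φ (T^[k] x)))) := by
    filter_upwards [haeT] with x hx
    exact (Real.continuous_exp.tendsto _).comp (tendsto_finsetSum _ fun k _ => hx k)
  have hfgi : Integrable (fun x => f (T^[n] x) * g x) μ := by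
    have := MemLp.mul' (p := 2) (q := 2) (r := 1) hg2 hfT2
    exact memLp_one_iff_integrable.mp this
  -- the second difference
  have hsecond : Tendsto (fun i => eLpNorm (fun x =>
      Real.exp (∑ k ∈ Finset.range n, ψ (ns i) (T^[k] x)) * (f (T^[n] x) * g x) -
      Real.exp (∑ k ∈ Finset.range n, φ (T^[k] x)) * (f (T^[n] x) * g x)) 1 μ) atTop (𝓝 0) := by
    have h := tendsto_lintegral_norm_of_dominated_convergence (μ := μ)
      (F := fun i x => Real.exp (∑ k ∈ Finset.range n, ψ (ns i) (T^[k] x)) * (f (T^[n] x) * g x))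
      (f := fun x => Real.exp (∑ k ∈ Finset.range n, φ (T^[k] x)) * (f (T^[n] x) * g x))
      (bound := fun x => Real.exp (2 * n) * ‖f (T^[n] x) * g x‖)
      (fun i => ((hEm (ns i)).mul (hfT.mul hg)).aestronglyMeasurable)
      (hfgi.norm.const_mul _).2
      (fun i => by
        filter_upwards [hEb (ns i)] with x hx
        rw [norm_mul]
        exact mul_le_mul_of_nonneg_right hx (norm_nonneg _))
      (by
        filter_upwards [hEae] with x hx
        exact hx.mul_const _)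
    refine h.congr fun i => ?_
    rw [eLpNorm_one_eq_lintegral_enorm]
    refine lintegral_congr fun x => ?_
    rw [ofReal_norm]
  -- the first difference
  have hfirst : Tendsto (fun J => eLpNorm (fun x =>
      Real.exp (∑ k ∈ Finset.range n, ψ J (T^[k] x)) * fJ J (T^[n] x) * gJ J x -
      Real.exp (∑ k ∈ Finset.range n, ψ J (T^[k] x)) * (f (T^[n] x) * g x)) 1 μ) atTop (𝓝 0) := by
    have hb : ∀ J, eLpNorm (fun x =>
        Real.exp (∑ k ∈ Finset.range n, ψ J (T^[k] x)) * fJ J (T^[n] x) * gJ J x -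
        Real.exp (∑ k ∈ Finset.range n, ψ J (T^[k] x)) * (f (T^[n] x) * g x)) 1 μ ≤
        ENNReal.ofReal (Real.exp (2 * n)) *
          eLpNorm (fun x => fJ J (T^[n] x) * gJ J x - f (T^[n] x) * g x) 1 μ := by
      intro J
      refine eLpNorm_le_mul_eLpNorm_of_ae_le_mul ?_ 1
      filter_upwards [hEb J] with x hx
      have e : Real.exp (∑ k ∈ Finset.range n, ψ J (T^[k] x)) * fJ J (T^[n] x) * gJ J x -
        Real.exp (∑ k ∈ Finset.range n, ψ J (T^[k] x)) * (f (T^[n] x) * g x) =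
        Real.exp (∑ k ∈ Finset.range n, ψ J (T^[k] x)) *
          (fJ J (T^[n] x) * gJ J x - f (T^[n] x) * g x) := by ring
      rw [e, norm_mul]
      exact mul_le_mul_of_nonneg_right hx (norm_nonneg _)
    have hl : Tendsto (fun J => ENNReal.ofReal (Real.exp (2 * n)) *
          eLpNorm (fun x => fJ J (T^[n] x) * gJ J x - f (T^[n] x) * g x) 1 μ) atTop (𝓝 0) := by
      simpa using ENNReal.Tendsto.const_mul (a := ENNReal.ofReal (Real.exp (2 * n))) hprod
        (Or.inr ENNReal.ofReal_ne_top)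
    exact tendsto_of_tendsto_of_tendsto_of_le_of_le tendsto_const_nhds hl (fun _ => zero_le) hb
  -- eventually everything is integrable
  have hint : ∀ᶠ J in atTop, Integrable (fun x =>
      Real.exp (∑ k ∈ Finset.range n, ψ J (T^[k] x)) * fJ J (T^[n] x) * gJ J x) μ := by
    filter_upwards [hfirst.eventually_lt_const (u := 1) (by norm_num)] with J hJ
    have h1 : MemLp (fun x =>
      Real.exp (∑ k ∈ Finset.range n, ψ J (T^[k] x)) * fJ J (T^[n] x) * gJ J x -
      Real.exp (∑ k ∈ Finset.range n, ψ J (T^[k] x)) * (f (T^[n] x) * g x)) 1 μ :=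
      ⟨((((hEm J).mul (hfJT J)).mul (hgJ J)).sub
        ((hEm J).mul (hfT.mul hg))).aestronglyMeasurable, hJ.trans_le (by norm_num)⟩
    have h2 : Integrable (fun x =>
      Real.exp (∑ k ∈ Finset.range n, ψ J (T^[k] x)) * (f (T^[n] x) * g x)) μ :=
      hfgi.bdd_mul (hEm J).aestronglyMeasurable (hEb J)
    have h3 := (memLp_one_iff_integrable.mp h1).add h2
    refine h3.congr (ae_of_all _ fun x => ?_)
    simp only [Pi.add_apply]
    ring
  have hL : Tendsto (fun i => ∫ x,
      Real.exp (∑ k ∈ Finset.range n, ψ (ns i) (T^[k] x)) * fJ (ns i) (T^[n] x) * gJ (ns i) x ∂μ)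
      atTop (𝓝 (∫ x, Real.exp (∑ k ∈ Finset.range n, φ (T^[k] x)) * f (T^[n] x) * g x ∂μ)) := by
    refine tendsto_integral_of_L1' _ ?_ (hns.tendsto_atTop.eventually hint) ?_
    · exact ((hEm'.mul hfT).mul hg).aestronglyMeasurable
    · have hsum := (hfirst.comp hns.tendsto_atTop).add hsecond
      rw [add_zero] at hsum
      refine tendsto_of_tendsto_of_tendsto_of_le_of_le tendsto_const_nhds hsum
        (fun _ => zero_le) (fun i => ?_)
      have e : ((fun x => Real.exp (∑ k ∈ Finset.range n, ψ (ns i) (T^[k] x)) *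
          fJ (ns i) (T^[n] x) * gJ (ns i) x) -
          fun x => Real.exp (∑ k ∈ Finset.range n, φ (T^[k] x)) * f (T^[n] x) * g x) =
          (fun x =>
      Real.exp (∑ k ∈ Finset.range n, ψ (ns i) (T^[k] x)) * fJ (ns i) (T^[n] x) * gJ (ns i) x -
      Real.exp (∑ k ∈ Finset.range n, ψ (ns i) (T^[k] x)) * (f (T^[n] x) * g x)) +
          (fun x =>
      Real.exp (∑ k ∈ Finset.range n, ψ (ns i) (T^[k] x)) * (f (T^[n] x) * g x) -
      Real.exp (∑ k ∈ Finset.range n, φ (T^[k] x)) * (f (T^[n] x) * g x)) := by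
        funext x
        simp only [Pi.sub_apply, Pi.add_apply]
        ring
      rw [e]
      refine (eLpNorm_add_le ?_ ?_ le_rfl).trans le_rfl
      · exact ((((hEm (ns i)).mul (hfJT (ns i))).mul (hgJ (ns i))).sub
          ((hEm (ns i)).mul (hfT.mul hg))).aestronglyMeasurable
      · exact (((hEm (ns i)).mul (hfT.mul hg)).sub (hEm'.mul (hfT.mul hg))).aestronglyMeasurable
  have hz : (fun i => ∫ x, Real.exp (∑ k ∈ Finset.range n, ψ (ns i) (T^[k] x)) *
      fJ (ns i) (T^[n] x) * gJ (ns i) x ∂μ) = fun _ => 0 := by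
    funext i
    exact h0 (ns i)
  rw [hz] at hL
  exact (tendsto_nhds_unique tendsto_const_nhds hL).symm

end Pool.Agent.Helper57.BI
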